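import Pool.Agent.H75.PRL.S3
import Pool.Agent.H97.PRL.LHL
import Pool.Agent.H98.AVS.RII

/-!
# The Poonen-Rains law, module LHI: the Hilbert symbol at infinity
-/

set_option autoImplicit false

namespace Pool.PRL

open Polynomial Matrix Pool.AVR Pool.AVS Pool.RZ Pool.AVS.RII

section LHIAux

variable {F : Type} [Field F]

lemma ps_rev (a : F[X]) :
    ps a.reverse = algebraMap F[X] (RatFunc F) a / RatFunc.X ^ a.natDegree :=
  ps_reflect a.natDegree a le_rfl

lemma ps_rev_ui {a : F[X]} (ha : a ≠ 0) : UI (Iinf F) (ps a.reverse) := by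
  have h0 : a.reverse ≠ 0 := fun h => ha (reverse_eq_zero.mp h)
  have ht : a.reverse.natTrailingDegree = 0 := by
    rw [natTrailingDegree_eq_zero]
    right
    rw [coeff_zero_reverse]
    exact leadingCoeff_ne_zero.mpr ha
  refine ⟨ps_ne h0, ps_mem _, ?_⟩
  show ((ps a.reverse)⁻¹).intDegree ≤ 0
  rw [RatFunc.intDegree_inv, intDegree_ps h0, ht]
  simp

end LHIAux

/-- LHI from LHL. -/
theorem lhi_thm (hL : LHLStmt) : LHIStmt := by
  intro F _ _ _ L _ O ι h a b ha hb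
  have hX : (RatFunc.X : RatFunc F) ≠ 0 := RatFunc.X_ne_zero
  have hιX : ι (RatFunc.X : RatFunc F) ≠ 0 := by
    rw [Ne, map_eq_zero_iff _ ι.injective]
    exact hX
  have hunit : ∀ c : F[X], c ≠ 0 → UI (O : Set L) (ι (ps c.reverse)) := by
    intro c hc
    obtain ⟨h1, h2, h3⟩ := ps_rev_ui hc
    refine ⟨?_, (h.mem _).mpr h2, ?_⟩
    · rw [Ne, map_eq_zero_iff _ ι.injective]
      exact h1
    · rw [← map_inv₀]
      exact (h.mem _).mpr h3
  have hdec : ∀ c : F[X], ι (rf c) =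
      ι (RatFunc.X)⁻¹ ^ c.natDegree * ι (ps c.reverse) * (ι RatFunc.X ^ c.natDegree) ^ 2 := by
    intro c
    have hn : ι (RatFunc.X : RatFunc F) ^ c.natDegree ≠ 0 := pow_ne_zero _ hιX
    rw [ps_rev, map_div₀, map_pow, map_inv₀, inv_pow]
    generalize ι (RatFunc.X : RatFunc F) ^ c.natDegree = y at hn
    show ι (algebraMap F[X] (RatFunc F) c) = _
    generalize ι (algebraMap F[X] (RatFunc F) c) = x
    field_simp
  rw [hdec a, hdec b, LHL.iso_sq _ _ (pow_ne_zero _ hιX), LHL.iso_comm,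
    LHL.iso_sq _ _ (pow_ne_zero _ hιX), LHL.iso_comm,
    hL L O (ι (RatFunc.X)⁻¹) h.loc _ _ _ _ (hunit a ha) (hunit b hb)]
  set g : F[X] := (-1) ^ (a.natDegree * b.natDegree) * a.reverse ^ b.natDegree *
    b.reverse ^ a.natDegree with hg
  have hgι : (-1) ^ (a.natDegree * b.natDegree) * ι (ps a.reverse) ^ b.natDegree *
      ι (ps b.reverse) ^ a.natDegree = ι (ps g) := by
    rw [hg]
    simp only [map_mul, map_pow, map_neg, map_one]
  have hg0 : g.coeff 0 = (-1) ^ (a.natDegree * b.natDegree) * a.leadingCoeff ^ b.natDegree *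
      b.leadingCoeff ^ a.natDegree := by
    rw [coeff_zero_eq_eval_zero, hg]
    simp only [eval_mul, eval_pow, eval_neg, eval_one]
    rw [← coeff_zero_eq_eval_zero, ← coeff_zero_eq_eval_zero, coeff_zero_reverse,
      coeff_zero_reverse]
  have hdiv : ∀ q : F[X], ι (ps q) / ι (RatFunc.X)⁻¹ ∈ O ↔ q.coeff 0 = 0 := by
    intro q
    have h1 := ps_div_mem q 1
    rw [pow_one, pow_one, X_dvd_iff] at h1
    rw [← map_div₀, h.mem]
    exact h1
  rw [hgι]
  show _ ↔ IsSquare _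
  rw [← hg0]
  clear hgι hg0
  clear_value g
  constructor
  · rintro ⟨w, hw, hd⟩
    obtain ⟨x, hx⟩ := h.dense w 1
    have hπ : ι (RatFunc.X : RatFunc F)⁻¹ ≠ 0 := h.loc.pi_ne
    have hxO : ι x ∈ O := by
      have h1 : ι x = w - (w - ι x) / ι (RatFunc.X)⁻¹ ^ 1 * ι (RatFunc.X)⁻¹ := by
        rw [pow_one, div_mul_cancel₀ _ hπ]
        ring
      rw [h1]
      exact sub_mem hw (mul_mem hx h.loc.pi_mem)
    obtain ⟨p, hp⟩ := approx x ((h.mem x).mp hxO) 1
    have h2 : (ι x - ι (ps p)) / ι (RatFunc.X)⁻¹ ∈ O := by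
      have h3 := (h.mem _).mpr hp
      rw [map_div₀, map_pow, map_sub, pow_one] at h3
      exact h3
    rw [pow_one] at hx
    have h4 : (w - ι (ps p)) / ι (RatFunc.X)⁻¹ ∈ O := by
      have e1 : (w - ι (ps p)) / ι (RatFunc.X)⁻¹ = (w - ι x) / ι (RatFunc.X)⁻¹ +
          (ι x - ι (ps p)) / ι (RatFunc.X)⁻¹ := by ring
      rw [e1]
      exact add_mem hx h2
    have hpO : ι (ps p) ∈ O := (h.mem _).mpr (ps_mem p)
    have h5 : ι (ps (g - p ^ 2)) / ι (RatFunc.X)⁻¹ ∈ O := by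
      have e1 : ι (ps (g - p ^ 2)) / ι (RatFunc.X)⁻¹ = (ι (ps g) - w ^ 2) / ι (RatFunc.X)⁻¹ +
          (w - ι (ps p)) / ι (RatFunc.X)⁻¹ * (w + ι (ps p)) := by
        simp only [map_sub, map_pow]
        ring
      rw [e1]
      exact add_mem hd (mul_mem h4 (add_mem hw hpO))
    have h6 := (hdiv _).mp h5
    refine ⟨p.coeff 0, ?_⟩
    have h7 : (g - p ^ 2).coeff 0 = g.coeff 0 - p.coeff 0 * p.coeff 0 := by
      rw [coeff_sub, sq p, mul_coeff_zero]
    rw [h7] at h6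
    exact sub_eq_zero.mp h6
  · rintro ⟨r, hr⟩
    refine ⟨ι (ps (C r)), (h.mem _).mpr (ps_mem _), ?_⟩
    have h5 : ι (ps (g - (C r) ^ 2)) / ι (RatFunc.X)⁻¹ ∈ O := by
      rw [hdiv, coeff_sub, sq (C r), mul_coeff_zero, coeff_C_zero, hr, sub_self]
    have e1 : ι (ps (g - (C r) ^ 2)) = ι (ps g) - ι (ps (C r)) ^ 2 := by
      simp only [map_sub, map_pow]
    rw [e1] at h5
    exact h5

/-- LHI: the Hilbert symbol at infinity. -/
theorem lhi : LHIStmt := lhi_thm lhl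

end Pool.PRL
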