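import Pool.Agent.H75.PRL.S1
import Pool.Agent.H69.RZ.USE
import Pool.Agent.H96.RZ.QF

/-!
# PRL, module SPU: the splitting modulo `P` and the uniformizer `vp`
-/

set_option autoImplicit false

namespace Pool.Agent.H81.PRL

open Polynomial Matrix Pool.AVR Pool.AVS Pool.RZ Pool.PRL

namespace SPU

/-- The norm form of the cubic with coefficients `a, b, c`. -/
def Nf {R : Type} [CommRing R] (a b c r0 r1 r2 : R) : R :=
  r0 ^ 3 - a * r0 ^ 2 * r1 + (a ^ 2 - 2 * b) * r0 ^ 2 * r2 + b * r0 * r1 ^ 2 +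
      (3 * c - a * b) * r0 * r1 * r2 + (b ^ 2 - 2 * a * c) * r0 * r2 ^ 2 - c * r1 ^ 3 +
      a * c * r1 ^ 2 * r2 - b * c * r1 * r2 ^ 2 + c ^ 2 * r2 ^ 3

/-- Translation by `e`. -/
theorem shift {R : Type} [CommRing R] (a b c e s0 s1 s2 : R) :
    Nf a b c (s0 - e * s1 + e ^ 2 * s2) (s1 - 2 * e * s2) s2 =
      Nf (a + 3 * e) (b + 2 * a * e + 3 * e ^ 2) (c + b * e + a * e ^ 2 + e ^ 3) s0 s1 s2 := by
  unfold Nf
  ring

/-- The cofactor. -/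
def W {R : Type} [CommRing R] (P b g x y z : R) : R :=
  1 - 2 * g * x ^ 2 + 2 * g ^ 2 * y ^ 2 + 4 * g ^ 2 * x * z - 2 * g ^ 3 * z ^ 2 - 2 * b * x -
  2 * b * g * x * y - 2 * b * g ^ 2 * y * z + b ^ 2 * x ^ 2 + b ^ 2 * g ^ 2 * z ^ 2 + 2 * P *
  y ^ 2 + 4 * P * x * z + 4 * P * x ^ 2 * y + P * x ^ 4 - 2 * P * g * z ^ 2 + 2 * P * g * x ^
  2 * y ^ 2 - 4 * P * g * x ^ 3 * z - 4 * P * g ^ 2 * y * z ^ 2 + P * g ^ 2 * y ^ 4 - 4 * P *
  g ^ 2 * x * y ^ 2 * z + 6 * P * g ^ 2 * x ^ 2 * z ^ 2 + 2 * P * g ^ 3 * y ^ 2 * z ^ 2 - 4 *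
  P * g ^ 3 * x * z ^ 3 + P * g ^ 4 * z ^ 4 - 2 * P * b * y * z - 2 * P * b * x * y ^ 2 - 6 *
  P * b * x ^ 2 * z - 2 * P * b * x ^ 3 * y + 4 * P * b * g * x * z ^ 2 - 2 * P * b * g * x *
  y ^ 3 + 2 * P * b * g * x ^ 2 * y * z + 2 * P * b * g ^ 2 * z ^ 3 - 2 * P * b * g ^ 2 * y ^
  3 * z + 2 * P * b * g ^ 2 * x * y * z ^ 2 - 2 * P * b * g ^ 3 * y * z ^ 3 + P * b ^ 2 * z ^
  2 + 4 * P * b ^ 2 * x * y * z + P * b ^ 2 * x ^ 2 * y ^ 2 + 2 * P * b ^ 2 * x ^ 3 * z + 4 *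
  P * b ^ 2 * g * x * y ^ 2 * z - 4 * P * b ^ 2 * g * x ^ 2 * z ^ 2 + P * b ^ 2 * g ^ 2 * y ^
  2 * z ^ 2 + 2 * P * b ^ 2 * g ^ 2 * x * z ^ 3 - 2 * P * b ^ 3 * x * z ^ 2 - 2 * P * b ^ 3 *
  x ^ 2 * y * z - 2 * P * b ^ 3 * g * x * y * z ^ 2 + P * b ^ 4 * x ^ 2 * z ^ 2 - 4 * P ^ 2 *
  y * z ^ 2 + P ^ 2 * y ^ 4 - 4 * P ^ 2 * x * y ^ 2 * z + 2 * P ^ 2 * x ^ 2 * z ^ 2 + 2 * P ^
  2 * g * y ^ 2 * z ^ 2 - 4 * P ^ 2 * g * x * z ^ 3 + 2 * P ^ 2 * g ^ 2 * z ^ 4 + 2 * P ^ 2 *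
  b * z ^ 3 - 2 * P ^ 2 * b * y ^ 3 * z + 6 * P ^ 2 * b * x * y * z ^ 2 - 2 * P ^ 2 * b * g *
  y * z ^ 3 + P ^ 2 * b ^ 2 * y ^ 2 * z ^ 2 - 2 * P ^ 2 * b ^ 2 * x * z ^ 3 + P ^ 3 * z ^ 4

/-- The norm of `Q ^ 2 + P` for the cubic `X Q + P (x + y X + z X ^ 2)`. -/
theorem main {R : Type} [CommRing R] (P b g x y z : R) :
    Nf (b + P * z) (g + P * y) (P * x)
      ((b + P * z) * (P * x) - 2 * b * (P * x) + g ^ 2 + P)
      (((b + P * z) * (g + P * y) - P * x) - 2 * b * (g + P * y) + 2 * b * g)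
      (((b + P * z) ^ 2 - (g + P * y)) - 2 * b * (b + P * z) + b ^ 2 + 2 * g) =
      P ^ 2 * (g ^ 2 + P * W P b g x y z) := by
  unfold Nf W
  ring

/-- The norm of `Q ^ 2 + P`, `Q = X ^ 2 + β X + γ`, for `(X - e) Q + P r`. -/
theorem key {R : Type} [CommRing R] (P e β γ r0 r1 r2 a b c : R) (ha : a = β - e + P * r2)
    (hb : b = γ - e * β + P * r1) (hc : c = -(e * γ) + P * r0) :
    Nf a b c (γ ^ 2 + P - c * (2 * β - a)) (2 * β * γ - c - b * (2 * β - a))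
      (β ^ 2 + 2 * γ - b - a * (2 * β - a)) =
      P ^ 2 * ((e ^ 2 + β * e + γ) ^ 2 + P * W P (β + 2 * e) (e ^ 2 + β * e + γ)
        (r0 + e * r1 + e ^ 2 * r2) (r1 + 2 * e * r2) r2) := by
  rw [← main]
  have h := shift a b c e
    ((γ ^ 2 + P - c * (2 * β - a)) + e * (2 * β * γ - c - b * (2 * β - a)) +
      e ^ 2 * (β ^ 2 + 2 * γ - b - a * (2 * β - a)))
    ((2 * β * γ - c - b * (2 * β - a)) + 2 * e * (β ^ 2 + 2 * γ - b - a * (2 * β - a)))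
    (β ^ 2 + 2 * γ - b - a * (2 * β - a))
  have e1 : ((γ ^ 2 + P - c * (2 * β - a)) + e * (2 * β * γ - c - b * (2 * β - a)) +
      e ^ 2 * (β ^ 2 + 2 * γ - b - a * (2 * β - a))) - e * ((2 * β * γ - c - b * (2 * β - a)) +
      2 * e * (β ^ 2 + 2 * γ - b - a * (2 * β - a))) +
      e ^ 2 * (β ^ 2 + 2 * γ - b - a * (2 * β - a)) = γ ^ 2 + P - c * (2 * β - a) := by
    ring
  have e2 : ((2 * β * γ - c - b * (2 * β - a)) +
      2 * e * (β ^ 2 + 2 * γ - b - a * (2 * β - a))) -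
      2 * e * (β ^ 2 + 2 * γ - b - a * (2 * β - a)) = 2 * β * γ - c - b * (2 * β - a) := by
    ring
  rw [e1, e2] at h
  rw [h]
  subst ha hb hc
  congr 1 <;> ring

variable {F : Type} [Field F]

theorem map_Nf {R S : Type} [CommRing R] [CommRing S] (φ : R →+* S) (a b c r0 r1 r2 : R) :
    φ (Nf a b c r0 r1 r2) = Nf (φ a) (φ b) (φ c) (φ r0) (φ r1) (φ r2) := by
  have e2 : φ 2 = 2 := map_ofNat φ 2
  have e3 : φ 3 = 3 := map_ofNat φ 3
  unfold Nf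
  simp only [map_add, map_sub, map_mul, map_pow, e2, e3]

/-- The product of the factors vanishes at the root. -/
theorem root_dvd {P e β γ : F[X]} {f : F[X] × F[X] × F[X]} (h : Spl P f e β γ) (x : F[X]) :
    P ∣ (x ^ 3 + f.1 * x ^ 2 + f.2.1 * x + f.2.2) - (x - e) * (x ^ 2 + β * x + γ) := by
  obtain ⟨-, ⟨a, ha⟩, ⟨b, hb⟩, ⟨c, hc⟩, -⟩ := h
  exact ⟨a * x ^ 2 + b * x + c, by linear_combination x ^ 2 * ha + x * hb + hc⟩

theorem eq_of_dvd {P a b : F[X]} (h : P ∣ a - b) (ha : a.degree < P.degree)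
    (hb : b.degree < P.degree) : a = b :=
  sub_eq_zero.1 (eq_zero_of_dvd_of_degree_lt h ((degree_sub_le a b).trans_lt (max_lt ha hb)))

end SPU

open SPU in
theorem spu : SPUStmt := by
  intro F _ P f hPm hP
  have hpr : Prime P := hP.prime
  refine ⟨?_, ?_⟩
  · intro e β γ e' β' γ' h h'
    have h1 := root_dvd h e'
    have h2 := root_dvd h' e'
    have h3 : P ∣ (e' - e) * (e' ^ 2 + β * e' + γ) := by
      have := dvd_sub h2 h1
      have h4 : (e' ^ 3 + f.1 * e' ^ 2 + f.2.1 * e' + f.2.2) -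
          (e' - e') * (e' ^ 2 + β' * e' + γ') -
          ((e' ^ 3 + f.1 * e' ^ 2 + f.2.1 * e' + f.2.2) -
          (e' - e) * (e' ^ 2 + β * e' + γ)) = (e' - e) * (e' ^ 2 + β * e' + γ) := by
        ring
      rwa [h4] at this
    obtain ⟨hn, ⟨a, ha⟩, ⟨b, hb⟩, -, d1, d2, d3⟩ := h
    obtain ⟨-, ⟨a', ha'⟩, ⟨b', hb'⟩, -, d1', d2', d3'⟩ := h'
    have he : P ∣ e' - e := (hpr.dvd_or_dvd h3).resolve_right (hn e')
    obtain rfl := eq_of_dvd he d1' d1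
    have hβ : β = β' := eq_of_dvd (P := P) ⟨a' - a, by linear_combination ha' - ha⟩ d2 d2'
    subst hβ
    have hγ : γ = γ' := eq_of_dvd (P := P) ⟨b' - b, by linear_combination hb' - hb⟩ d3 d3'
    exact ⟨rfl, rfl, hγ⟩
  · intro e β γ h
    have hn := h.1
    have hroot : P ∣ e ^ 3 + f.1 * e ^ 2 + f.2.1 * e + f.2.2 := by
      have h1 := root_dvd h e
      rwa [sub_self, zero_mul, sub_zero] at h1
    have hQ := hn e
    obtain ⟨-, ⟨r2, h2⟩, ⟨r1, h1⟩, ⟨r0, h0⟩, -⟩ := h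
    obtain ⟨w, hkey⟩ : ∃ w : F[X], Nf f.1 f.2.1 f.2.2 (γ ^ 2 + P - f.2.2 * (2 * β - f.1))
        (2 * β * γ - f.2.2 - f.2.1 * (2 * β - f.1))
        (β ^ 2 + 2 * γ - f.2.1 - f.1 * (2 * β - f.1)) =
        P ^ 2 * ((e ^ 2 + β * e + γ) ^ 2 + P * w) :=
      ⟨_, key P e β γ r0 r1 r2 f.1 f.2.1 f.2.2 (by linear_combination h2)
        (by linear_combination h1) (by linear_combination h0)⟩
    obtain ⟨ν, hν⟩ : ∃ ν : F[X], ν = (e ^ 2 + β * e + γ) ^ 2 + P * w := ⟨_, rfl⟩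
    rw [← hν] at hkey
    have hnorm : Algebra.norm (RatFunc F) (AdjoinRoot.mk (cubK f) (lf (vp P β γ))) =
        rf (P ^ 2 * ν) := by
      rw [← hkey]
      have h3 := QF.norm_cub (kf f).1 (kf f).2.1 (kf f).2.2 (lf (vp P β γ))
        (rf (γ ^ 2 + P - f.2.2 * (2 * β - f.1)))
        (rf (2 * β * γ - f.2.2 - f.2.1 * (2 * β - f.1)))
        (rf (β ^ 2 + 2 * γ - f.2.1 - f.1 * (2 * β - f.1))) ?_
      · exact Eq.trans h3 (map_Nf (algebraMap F[X] (RatFunc F)) _ _ _ _ _ _).symm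
      · have h4 : cubP f ∣ vp P β γ - (C (γ ^ 2 + P - f.2.2 * (2 * β - f.1)) +
            C (2 * β * γ - f.2.2 - f.2.1 * (2 * β - f.1)) * X +
            C (β ^ 2 + 2 * γ - f.2.1 - f.1 * (2 * β - f.1)) * X ^ 2) := by
          refine ⟨X + C (2 * β - f.1), ?_⟩
          unfold vp cubP cub
          simp only [C_add, C_sub, C_mul, C_pow]
          have h5 : (C (2 : F[X]) : F[X][X]) = 2 := rfl
          rw [h5]
          ring
        obtain ⟨w', hw⟩ := h4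
        refine ⟨lf w', ?_⟩
        have h5 := congrArg (Polynomial.map (algebraMap F[X] (RatFunc F))) hw
        rw [Polynomial.map_sub, Polynomial.map_mul] at h5
        have h6 : (cubP f).map (algebraMap F[X] (RatFunc F)) =
            cub (kf f).1 (kf f).2.1 (kf f).2.2 := by
          simp [cubP, cub, kf]
        rw [h6] at h5
        rw [← h5]
        simp
    have hν1 : ¬ P ∣ ν := by
      intro h3
      have h4 : P ∣ (e ^ 2 + β * e + γ) ^ 2 := by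
        rw [hν] at h3
        exact (dvd_add_left (dvd_mul_right _ _)).1 h3
      exact hQ (hpr.dvd_of_dvd_pow h4)
    refine ⟨hQ, hroot, ?_, ?_, ν, hnorm, hν1, ⟨e ^ 2 + β * e + γ, ?_⟩⟩
    · rintro p ⟨p', r, q, hq⟩ hpe
      have h3 := congrArg (Polynomial.eval e) hq
      simp only [eval_sub, eval_mul, eval_one, eval_C] at h3
      have h4 : P ∣ (cubP f).eval e := by
        have h5 : (cubP f).eval e = e ^ 3 + f.1 * e ^ 2 + f.2.1 * e + f.2.2 := by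
          simp [cubP, cub]
        rw [h5]
        exact hroot
      have h5 : P ∣ 1 := by
        obtain ⟨u, hu⟩ := hpe
        obtain ⟨v, hv⟩ := h4
        refine ⟨u * p'.eval e - r.eval e - v * q.eval e, ?_⟩
        rw [hu, hv] at h3
        linear_combination -h3
      exact hP.not_isUnit (isUnit_of_dvd_one h5)
    · refine USE.coprime_of_norm _ _ (USE.cubK_monic f) ?_
      rw [hnorm, rf, Ne, FaithfulSMul.algebraMap_eq_zero_iff]
      refine mul_ne_zero (pow_ne_zero _ hPm.ne_zero) ?_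
      intro h3
      exact hν1 (h3 ▸ dvd_zero P)
    · rw [hν]
      exact ⟨w, by ring⟩

end Pool.Agent.H81.PRL
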